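import Mathlib
import Pool.Agent.Q121.HamCount

/-!
# Corner-side swaps and common words on king's-graph boards (MP_407208)

For `n = 4` and `k = 16` (all words using every letter) the board obtained by exchanging the labels of
the cells `(1,2)` and `(2,2)` has more words in common with the given board than a corner-side swap
(158224 against 109844).  The two numbers of common words are numbers of Hamiltonian paths of two
16-vertex graphs; they are compared by the kernel with the packed dynamic programme of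
`Pool.Agent.Q121.HamCount`.
-/

namespace Pool.Agent.Results.MP_407208_co.CornerSwapNotOptimal

open Pool.Agent.Q121

/-- The cells of the `n × n` grid (row, column). -/
abbrev Cell (n : ℕ) : Type := Fin n × Fin n

/-- Two cells are adjacent if they are distinct and touch horizontally, vertically or diagonally. -/
def Adj {n : ℕ} (p q : Cell n) : Prop :=
  p ≠ q ∧ (p.1.1 ≤ q.1.1 + 1 ∧ q.1.1 ≤ p.1.1 + 1) ∧ (p.2.1 ≤ q.2.1 + 1 ∧ q.2.1 ≤ p.2.1 + 1)

instance {n : ℕ} (p q : Cell n) : Decidable (Adj p q) := by unfold Adj; infer_instance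

/-- A board: a bijection from the cells to the `n^2` labels. -/
abbrev Board (n : ℕ) : Type := Cell n ≃ Fin (n ^ 2)

/-- The `k`-letter words of a board: sequences of `k` distinct labels such that consecutive labels
lie in adjacent cells. -/
def Words {n : ℕ} (B : Board n) (k : ℕ) : Set (List (Fin (n ^ 2))) :=
  {a | a.length = k ∧ a.Nodup ∧ a.IsChain (fun x y => Adj (B.symm x) (B.symm y))}

/-- The number of `k`-letter words in common. -/
noncomputable def common {n : ℕ} (B B' : Board n) (k : ℕ) : ℕ := (Words B k ∩ Words B' k).ncard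

/-- Equivalent boards: the same words of every length `≥ 2`. -/
def Equivalent {n : ℕ} (B B' : Board n) : Prop := ∀ k, 2 ≤ k → Words B k = Words B' k

/-- Corner cells. -/
def IsCorner {n : ℕ} (p : Cell n) : Prop :=
  (p.1.1 = 0 ∨ p.1.1 = n - 1) ∧ (p.2.1 = 0 ∨ p.2.1 = n - 1)

/-- Boundary cells. -/
def IsBoundary {n : ℕ} (p : Cell n) : Prop :=
  (p.1.1 = 0 ∨ p.1.1 = n - 1) ∨ (p.2.1 = 0 ∨ p.2.1 = n - 1)

/-- Two cells share an edge. -/
def ShareEdge {n : ℕ} (p q : Cell n) : Prop := Adj p q ∧ (p.1 = q.1 ∨ p.2 = q.2)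

/-- `B'` is a corner-side swap of `B`: the labels in a corner cell `p` and in a non-corner boundary
cell `q` sharing an edge with `p` are exchanged. -/
def IsCornerSideSwap {n : ℕ} (B B' : Board n) : Prop :=
  ∃ p q : Cell n, IsCorner p ∧ ¬ IsCorner q ∧ IsBoundary q ∧ ShareEdge p q ∧
    B' = (Equiv.swap p q).trans B

/-- The statement of Q1. -/
def Q1 : Prop :=
  ∀ n k : ℕ, 4 ≤ n → 2 ≤ k → ∀ B Bs : Board n, IsCornerSideSwap B Bs →
    IsGreatest {c | ∃ B' : Board n, ¬ Equivalent B B' ∧ c = common B B' k} (common B Bs k)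

/-! ## The two graphs -/

/-- The standard board: the label of the cell `(i, j)` is `4 i + j`. -/
def B0 : Board 4 := finProdFinEquiv.trans (finCongr (by norm_num))

/-- The corner-side swap exchanging the labels of `(1,1)` and `(1,2)`. -/
def B1 : Board 4 := (Equiv.swap ((0, 0) : Cell 4) (0, 1)).trans B0

/-- The board with the labels of `(1,2)` and `(2,2)` exchanged. -/
def B2 : Board 4 := (Equiv.swap ((0, 1) : Cell 4) (1, 1)).trans B0

/-- Out-neighbour lists of the graph of the common adjacencies of `B0` and `B1`. -/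
def nb1 : List (List ℕ) := [[1, 4, 5], [0, 4, 5], [3, 5, 6, 7], [2, 6, 7], [0, 1, 5, 8, 9],
  [0, 1, 2, 4, 6, 8, 9, 10], [2, 3, 5, 7, 9, 10, 11], [2, 3, 6, 10, 11], [4, 5, 9, 12, 13],
  [4, 5, 6, 8, 10, 12, 13, 14], [5, 6, 7, 9, 11, 13, 14, 15], [6, 7, 10, 14, 15], [8, 9, 13],
  [8, 9, 10, 12, 14], [9, 10, 11, 13, 15], [10, 11, 14]]

/-- Out-neighbour lists of the graph of the common adjacencies of `B0` and `B2`. -/
def nb2 : List (List ℕ) := [[1, 4, 5], [0, 2, 4, 5, 6], [1, 3, 5, 6, 7], [2, 6, 7], [0, 1, 5, 8, 9],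
  [0, 1, 2, 4, 6], [1, 2, 3, 5, 7, 9, 10, 11], [2, 3, 6, 10, 11], [4, 9, 12, 13],
  [4, 6, 8, 10, 12, 13, 14], [6, 7, 9, 11, 13, 14, 15], [6, 7, 10, 14, 15], [8, 9, 13],
  [8, 9, 10, 12, 14], [9, 10, 11, 13, 15], [10, 11, 14]]

lemma good_of {nb : List (List ℕ)} (hlen : nb.length = 16)
    (h : ∀ v < 16, (nb.getD v []).Nodup ∧ ∀ w ∈ nb.getD v [], w < 16) : HamCount.Good 16 nb := by
  intro v
  by_cases hv : v < 16
  · exact h v hv
  · rw [List.getD_eq_default _ _ (by omega)]
    simp

lemma good1 : HamCount.Good 16 nb1 := good_of rfl (by decide)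
lemma good2 : HamCount.Good 16 nb2 := good_of rfl (by decide)

set_option maxRecDepth 100000 in
lemma adj1 : ∀ x y : Fin (4 ^ 2), (Adj (B0.symm x) (B0.symm y) ∧ Adj (B1.symm x) (B1.symm y)) ↔
    y.1 ∈ nb1.getD x.1 [] := by decide +kernel

set_option maxRecDepth 100000 in
lemma adj2 : ∀ x y : Fin (4 ^ 2), (Adj (B0.symm x) (B0.symm y) ∧ Adj (B2.symm x) (B2.symm y)) ↔
    y.1 ∈ nb2.getD x.1 [] := by decide +kernel

lemma isChain_and {α : Type} (R S : α → α → Prop) (l : List α) :
    (l.IsChain R ∧ l.IsChain S) ↔ l.IsChain (fun x y => R x y ∧ S x y) := by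
  induction l with
  | nil => simp
  | cons a l ih =>
    cases l with
    | nil => simp
    | cons b l =>
      simp only [List.isChain_cons_cons]
      rw [← ih]
      tauto

/-- The number of common words with all 16 letters is a number of Hamiltonian paths. -/
lemma common_eq (B B' : Board 4) (nb : List (List ℕ))
    (h : ∀ x y : Fin (4 ^ 2), (Adj (B.symm x) (B.symm y) ∧ Adj (B'.symm x) (B'.symm y)) ↔
      y.1 ∈ nb.getD x.1 []) :
    common B B' 16 = (HamCount.HamPaths 16 nb).ncard := by
  unfold common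
  have hinj : Function.Injective (List.map (Fin.val : Fin (4 ^ 2) → ℕ)) :=
    List.map_injective_iff.mpr Fin.val_injective
  rw [← Set.ncard_image_of_injective _ hinj]
  congr 1
  ext l
  simp only [Set.mem_image, Set.mem_inter_iff, Words, Set.mem_ofPred_eq, HamCount.HamPaths]
  have hchain : ∀ a : List (Fin (4 ^ 2)), (a.map Fin.val).IsChain (fun x y => y ∈ nb.getD x []) ↔
      (a.IsChain (fun x y => Adj (B.symm x) (B.symm y)) ∧
        a.IsChain (fun x y => Adj (B'.symm x) (B'.symm y))) := by
    intro a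
    rw [isChain_and, List.isChain_map]
    constructor
    · intro ha
      exact ha.imp (fun x y hxy => (h x y).mpr hxy)
    · intro ha
      exact ha.imp (fun x y hxy => (h x y).mp hxy)
  constructor
  · rintro ⟨a, ⟨⟨h1, h2, h3⟩, -, -, h4⟩, rfl⟩
    refine ⟨by simpa using h1, h2.map Fin.val_injective, (hchain a).mpr ⟨h3, h4⟩, ?_⟩
    intro x hx
    rw [List.mem_map] at hx
    obtain ⟨y, -, rfl⟩ := hx
    exact y.2
  · rintro ⟨h1, h2, h3, h4⟩
    have hl : ∃ a : List (Fin (4 ^ 2)), a.map Fin.val = l := by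
      refine ⟨l.attach.map (fun x => (⟨x.1, h4 x.1 x.2⟩ : Fin (4 ^ 2))), ?_⟩
      rw [List.map_map]
      conv_rhs => rw [← List.attach_map_subtype_val l]
      rfl
    obtain ⟨a, rfl⟩ := hl
    have h3' := (hchain a).mp h3
    have h2' : a.Nodup := List.Nodup.of_map _ h2
    have h1' : a.length = 16 := by simpa using h1
    exact ⟨a, ⟨⟨h1', h2', h3'.1⟩, h1', h2', h3'.2⟩, rfl⟩

/-- The kernel computation. -/
lemma total_lt : HamCount.total 64 16 nb1 15 < HamCount.total 64 16 nb2 15 := by decide +kernel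

/-- The board `B2` has more 16-letter words in common with `B0` than the corner-side swap `B1`. -/
theorem common_lt : common B0 B1 16 < common B0 B2 16 := by
  rw [common_eq B0 B1 nb1 adj1, common_eq B0 B2 nb2 adj2]
  have h1 := HamCount.total_eq (W := 64) good1 (by norm_num) (by norm_num)
  have h2 := HamCount.total_eq (W := 64) good2 (by norm_num) (by norm_num)
  have h3 := total_lt
  rw [show (16 : ℕ) - 1 = 15 from rfl] at h1 h2
  rw [h1, h2] at h3
  exact lt_of_mul_lt_mul_right h3 (Nat.zero_le _)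

/-! ## Symmetries of the grid and relabelling -/

lemma words_symm (g : Cell 4 ≃ Cell 4) (hg : ∀ p q, Adj (g p) (g q) ↔ Adj p q) (B : Board 4)
    (k : ℕ) : Words (g.trans B) k = Words B k := by
  have h : ∀ x y, Adj ((g.trans B).symm x) ((g.trans B).symm y) ↔ Adj (B.symm x) (B.symm y) := by
    intro x y
    rw [← hg, Equiv.symm_trans_apply, Equiv.symm_trans_apply, Equiv.apply_symm_apply,
      Equiv.apply_symm_apply]
  unfold Words
  simp only [h]

lemma words_relabel {n : ℕ} (τ : Fin (n ^ 2) ≃ Fin (n ^ 2)) (B : Board n) (k : ℕ) :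
    Words (B.trans τ) k = (List.map τ) '' Words B k := by
  ext a
  simp only [Words, Set.mem_image, Set.mem_ofPred_eq]
  constructor
  · rintro ⟨h1, h2, h3⟩
    refine ⟨a.map τ.symm, ⟨by simpa using h1, h2.map τ.symm.injective, ?_⟩, ?_⟩
    · rw [List.isChain_map]
      exact h3
    · rw [List.map_map]
      simp
  · rintro ⟨b, ⟨h1, h2, h3⟩, rfl⟩
    refine ⟨by simpa using h1, h2.map τ.injective, ?_⟩
    rw [List.isChain_map]
    simpa using h3

lemma common_relabel {n : ℕ} (τ : Fin (n ^ 2) ≃ Fin (n ^ 2)) (B B' : Board n) (k : ℕ) :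
    common (B.trans τ) (B'.trans τ) k = common B B' k := by
  have hinj : Function.Injective (List.map τ) := List.map_injective_iff.mpr τ.injective
  unfold common
  rw [words_relabel, words_relabel, ← Set.image_inter hinj, Set.ncard_image_of_injective _ hinj]

/-- The eight symmetries of the grid. -/
def symms : List (Cell 4 ≃ Cell 4) :=
  [Equiv.refl _, Equiv.prodComm _ _].flatMap fun s =>
    [Equiv.refl _, Fin.revPerm].flatMap fun r1 =>
      [Equiv.refl _, Fin.revPerm].map fun r2 => s.trans (Equiv.prodCongr r1 r2)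

instance {n : ℕ} (p : Cell n) : Decidable (IsCorner p) := by unfold IsCorner; infer_instance
instance {n : ℕ} (p : Cell n) : Decidable (IsBoundary p) := by unfold IsBoundary; infer_instance
instance {n : ℕ} (p q : Cell n) : Decidable (ShareEdge p q) := by unfold ShareEdge; infer_instance

lemma symms_adj : ∀ g ∈ symms, ∀ p q, Adj (g p) (g q) ↔ Adj p q := by
  intro g hg p q
  have key : ∀ r ∈ [Equiv.refl (Fin 4), Fin.revPerm], ∀ a b : Fin 4,
      ((r a).1 ≤ (r b).1 + 1 ∧ (r b).1 ≤ (r a).1 + 1) ↔ (a.1 ≤ b.1 + 1 ∧ b.1 ≤ a.1 + 1) := by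
    intro r hr a b
    simp only [List.mem_cons, List.not_mem_nil, or_false] at hr
    rcases hr with rfl | rfl
    · exact Iff.rfl
    · simp only [Fin.revPerm_apply, Fin.val_rev]
      omega
  simp only [symms, List.mem_flatMap] at hg
  obtain ⟨s, hs, r1, hr1, hg⟩ := hg
  rw [List.mem_map] at hg
  obtain ⟨r2, hr2, rfl⟩ := hg
  simp only [List.mem_cons, List.not_mem_nil, or_false] at hs
  unfold Adj
  rw [(Equiv.injective _).ne_iff]
  rcases hs with rfl | rfl
  · have e1 := key r1 hr1 p.1 q.1
    have e2 := key r2 hr2 p.2 q.2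
    exact and_congr Iff.rfl (and_congr e1 e2)
  · have e1 := key r1 hr1 p.2 q.2
    have e2 := key r2 hr2 p.1 q.1
    refine and_congr Iff.rfl ?_
    rw [and_comm (a := p.1.1 ≤ q.1.1 + 1 ∧ q.1.1 ≤ p.1.1 + 1)]
    exact and_congr e1 e2

lemma symms_trans : ∀ p q : Cell 4, IsCorner p → ¬ IsCorner q → IsBoundary q → ShareEdge p q →
    ∃ g ∈ symms, g (0, 0) = p ∧ g (0, 1) = q := by decide +kernel

lemma not_equiv_words : Words B0 2 ≠ Words B2 2 := by
  intro h
  have h1 : ([5, 8] : List (Fin (4 ^ 2))) ∈ Words B0 2 := by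
    refine ⟨rfl, by decide, ?_⟩
    rw [List.isChain_cons_cons]
    exact ⟨by decide +kernel, List.IsChain.singleton _⟩
  rw [h] at h1
  have h2 := h1.2.2
  rw [List.isChain_cons_cons] at h2
  exact absurd h2.1 (by decide +kernel)

/-- **Q1 is false**, already for `n = 4` and `k = 16`: for every `4 × 4` board `B` and every
corner-side swap `Bs` of `B` some board `B'` not equivalent to `B` has strictly more 16-letter words
in common with `B` than `Bs` has. -/
theorem result :
    (∀ B Bs : Board 4, IsCornerSideSwap B Bs →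
      ∃ B' : Board 4, ¬ Equivalent B B' ∧ common B Bs 16 < common B B' 16) ∧ ¬ Q1 := by
  have main : ∀ B Bs : Board 4, IsCornerSideSwap B Bs →
      ∃ B' : Board 4, ¬ Equivalent B B' ∧ common B Bs 16 < common B B' 16 := by
    rintro B Bs ⟨p, q, hp, hq, hqb, hpq, rfl⟩
    obtain ⟨g, hg, hgp, hgq⟩ := symms_trans p q hp hq hqb hpq
    have hadj := symms_adj g hg
    obtain ⟨τ, hτ⟩ : ∃ τ : Fin (4 ^ 2) ≃ Fin (4 ^ 2), g.trans B = B0.trans τ :=
      ⟨B0.symm.trans (g.trans B), by
        rw [← Equiv.trans_assoc, Equiv.self_trans_symm, Equiv.refl_trans]⟩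
    have hB : ∀ k, Words B k = Words (B0.trans τ) k := by
      intro k
      rw [← hτ, words_symm g hadj]
    have hBs : ∀ k, Words ((Equiv.swap p q).trans B) k = Words (B1.trans τ) k := by
      intro k
      rw [← words_symm g hadj]
      have : g.trans ((Equiv.swap p q).trans B) = B1.trans τ := by
        have h1 : B1.trans τ = (Equiv.swap ((0, 0) : Cell 4) (0, 1)).trans (g.trans B) := by
          rw [hτ, ← Equiv.trans_assoc]; rfl
        rw [h1]
        ext x : 1
        simp only [Equiv.trans_apply]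
        congr 1
        rw [← hgp, ← hgq, Equiv.swap_apply_def, Equiv.swap_apply_def]
        by_cases e1 : x = (0, 0)
        · simp [e1]
        · by_cases e2 : x = (0, 1)
          · simp [e2]
          · simp [e1, e2]
      rw [this]
    refine ⟨B2.trans τ, ?_, ?_⟩
    · intro h
      have h1 := h 2 le_rfl
      rw [hB, words_relabel, words_relabel] at h1
      exact not_equiv_words ((List.map_injective_iff.mpr τ.injective).image_injective h1)
    · have e1 : common B ((Equiv.swap p q).trans B) 16 = common B0 B1 16 := by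
        rw [← common_relabel τ B0 B1]
        unfold common
        rw [hB, hBs]
      have e2 : common B (B2.trans τ) 16 = common B0 B2 16 := by
        rw [← common_relabel τ B0 B2]
        unfold common
        rw [hB]
      rw [e1, e2]
      exact common_lt
  refine ⟨main, ?_⟩
  intro h
  have hsw : IsCornerSideSwap B0 B1 :=
    ⟨(0, 0), (0, 1), by decide, by decide, by decide, by decide, rfl⟩
  obtain ⟨B', h1, h2⟩ := main B0 B1 hsw
  have h3 := (h 4 16 le_rfl (by norm_num) B0 B1 hsw).2 ⟨B', h1, rfl⟩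
  omega

end Pool.Agent.Results.MP_407208_co.CornerSwapNotOptimal
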